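import Pool.Agent.H2.G1.Stmts

/-!
# T2, module LAW
-/

open Finset

namespace Pool.Agent.H2.G1

open Pool.Agent.H95.G1 Pool.Agent.H95.TB

namespace LAW

lemma c_def (d : ED) (y : Fin 3) : d.c y = d.al y + d.be y := rfl

lemma w_t {d : ED} (hb : d.b = true) : d.w = 3 * d.be 0 + d.be 1 + d.be 2 := by
  unfold ED.w nv
  rw [Fin.sum_univ_three, hb]
  simp
lemma w_f {d : ED} (hb : d.b = false) : d.w = 2 * d.be 0 + d.be 1 + d.be 2 := by
  unfold ED.w nv
  rw [Fin.sum_univ_three, hb]
  simp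
lemma w0_t {d : ED} (hb : d.b = true) : d.w0 = 3 * d.al 0 + d.al 1 + d.al 2 := by
  unfold ED.w0 nv
  rw [Fin.sum_univ_three, hb]
  simp
lemma w0_f {d : ED} (hb : d.b = false) : d.w0 = 2 * d.al 0 + d.al 1 + d.al 2 := by
  unfold ED.w0 nv
  rw [Fin.sum_univ_three, hb]
  simp
lemma M_t {d : ED} (hb : d.b = true) :
    d.M = d.c 0 / 3 * (9 * d.be 0 / 2 + 2 * d.be 1 + d.be 2) + d.c 1 * (d.be 0 + d.be 1 / 2) +
      d.c 2 * (2 * d.be 0 + d.be 1 + d.be 2 / 2) := by
  unfold ED.M nv vw
  rw [hb]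
  simp only [MM_cons, MM_nil, len_cons, len_nil, if_true]
  simp
  ring
lemma M_f {d : ED} (hb : d.b = false) :
    d.M = d.c 0 / 2 * (2 * d.be 0 + d.be 1) + d.c 1 * (d.be 0 + d.be 1 / 2) +
      d.c 2 * (2 * d.be 0 + d.be 1 + d.be 2 / 2) := by
  unfold ED.M nv vw
  rw [hb]
  simp only [Bool.false_eq_true, if_false]
  simp only [MM_cons, MM_nil, len_cons, len_nil]
  simp
  ring

/-- the case without window -/
lemma w_zero {d : ED} (hv : Valid d) (hw : d.w = 0) : (∀ y, d.be y = 0) ∧ (d.p < 1 → d.p = 0) := by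
  have h : d.be 0 = 0 ∧ d.be 1 = 0 ∧ d.be 2 = 0 := by
    have h0 := hv.be0 0
    have h1 := hv.be0 1
    have h2 := hv.be0 2
    cases hb : d.b
    · rw [w_f hb] at hw
      refine ⟨by linarith, by linarith, by linarith⟩
    · rw [w_t hb] at hw
      refine ⟨by linarith, by linarith, by linarith⟩
  obtain ⟨h0, h1, h2⟩ := h
  refine ⟨fun y => ?_, fun hp => ?_⟩
  · fin_cases y
    exacts [h0, h1, h2]
  · by_contra hne
    have hpos : 0 < d.p := lt_of_le_of_ne hv.p0 (Ne.symm hne)
    have hc := hv.cone hpos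
    have := hv.sum
    rw [hc 0, hc 1, hc 2, h0, h1, h2] at this
    linarith

lemma p_one {d : ED} (hv : Valid d) (hp : ¬ d.p < 1) : (∀ y, d.al y = 0) ∧ (∀ y, d.be y = 0) ∧ d.p = 1 := by
  have h0 := hv.be0 0
  have h1 := hv.be0 1
  have h2 := hv.be0 2
  have a0 := hv.al0 0
  have a1 := hv.al0 1
  have a2 := hv.al0 2
  have := hv.sum
  have hp' : 1 ≤ d.p := not_lt.1 hp
  refine ⟨fun y => ?_, fun y => ?_, by linarith⟩
  · fin_cases y <;> simp <;> linarith
  · fin_cases y <;> simp <;> linarith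

lemma sum_c {d : ED} (hv : Valid d) : d.c 0 + d.c 1 + d.c 2 + d.p = 1 := by
  rw [c_def, c_def, c_def]
  linarith [hv.sum]

/-- swap, angle -/
lemma A_sw_t {d : ED} (hb : d.b = true) (h0 : d.al 0 = 0 ∧ d.be 0 = 0) (hp : d.p < 1) :
    (swD d).A - d.A = hh d 2 / 12 := by
  have e1 : (swD d).w = d.w := by
    rw [w_f (show (swD d).b = false by simp [swD, hb]), w_t hb]
    simp only [swD]
    rw [h0.2]; ring
  have e2 : (swD d).M = d.M := by
    rw [M_f (show (swD d).b = false by simp [swD, hb]), M_t hb]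
    simp only [swD, c_def]
    rw [h0.2, h0.1]; ring
  have e3 : (swD d).p = d.p := rfl
  have e4 : (swD d).T = d.T := rfl
  have e5 : (swD d).c 2 = d.c 2 := rfl
  have e6 : (swD d).b = false := by simp [swD, hb]
  unfold ED.A ED.Phi hh
  rw [e1, e2, e3, e4, e5, e6, hb]
  have : (1 - d.p) ≠ 0 := by linarith
  simp only [if_true]
  simp only [Bool.false_eq_true, if_false]
  field_simp
  ring

lemma A_sw_f {d : ED} (hb : d.b = false) (h0 : d.al 0 = 0 ∧ d.be 0 = 0) (hp : d.p < 1) :
    (swD d).A - d.A = -(hh d 2 / 12) := by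
  have e := A_sw_t (d := swD d) (by simp [swD, hb]) h0 hp
  have e' : swD (swD d) = d := by unfold swD; simp
  rw [e'] at e
  have : hh (swD d) 2 = hh d 2 := rfl
  rw [this] at e
  linarith

/-- rotation, angle -/
lemma A_rt {d : ED} (hv : Valid d) (h0 : d.al 2 = 0 ∧ d.be 2 = 0) (hp : d.p < 1) :
    ka 2 d + (rtD d).A - d.A = if d.b = true then 2 / 3 else 3 / 4 := by
  have hs := sum_c hv
  have e3 : (rtD d).p = d.p := rfl
  have e4 : (rtD d).T = d.T + d.be 0 := rfl
  have e5 : (rtD d).c 2 = d.c 1 := by rw [c_def, c_def]; simp [rtD]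
  have e6 : (rtD d).b = d.b := rfl
  have e7 : (rtD d).c 0 = d.c 0 := by rw [c_def, c_def]; simp [rtD]
  have e8 : (rtD d).c 1 = 0 := by rw [c_def]; simp [rtD]
  have c2 : d.c 2 = 0 := by rw [c_def, h0.1, h0.2, add_zero]
  have b0 : (rtD d).be 0 = d.be 0 := rfl
  have b1 : (rtD d).be 1 = 0 := rfl
  have b2 : (rtD d).be 2 = d.be 1 := rfl
  have hp' : (1 - d.p) ≠ 0 := by linarith
  have hk : ka 2 d = (if d.b = true then 2 / 3 else 3 / 4) * d.c 0 + d.p / 2 := by unfold ka; simp
  rw [hk]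
  cases hb : d.b
  · have e1 : (rtD d).w = d.w := by
      rw [w_f (show (rtD d).b = false from hb), w_f hb, b0, b1, b2, h0.2]; ring
    have e2 : (rtD d).M = d.M + d.be 0 * (1 - d.p) - d.w * d.c 0 / 2 := by
      rw [M_f (show (rtD d).b = false from hb), M_f hb, b0, b1, b2, e5, e7, e8, c2, w_f hb, h0.2]
      have : d.p = 1 - d.c 0 - d.c 1 := by linarith
      rw [this]
      ring
    unfold ED.A ED.Phi
    rw [e1, e2, e3, e4, e5, e6, hb, c2]
    simp only [Bool.false_eq_true, if_false]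
    by_cases hw : d.w = 0
    · have hp0 := (w_zero hv hw).2 hp
      rw [hw, hp0]
      simp only [div_zero, zero_mul, mul_zero]
      have : d.c 0 + d.c 1 = 1 := by linarith
      linarith
    · have : d.c 1 = 1 - d.p - d.c 0 := by linarith
      rw [this]
      field_simp
      ring
  · have e1 : (rtD d).w = d.w := by
      rw [w_t (show (rtD d).b = true from hb), w_t hb, b0, b1, b2, h0.2]; ring
    have e2 : (rtD d).M = d.M + d.be 0 * (1 - d.p) - d.w * d.c 0 / 3 := by
      rw [M_t (show (rtD d).b = true from hb), M_t hb, b0, b1, b2, e5, e7, e8, c2, w_t hb, h0.2]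
      have : d.p = 1 - d.c 0 - d.c 1 := by linarith
      rw [this]
      ring
    unfold ED.A ED.Phi
    rw [e1, e2, e3, e4, e5, e6, hb, c2]
    simp only [if_true]
    by_cases hw : d.w = 0
    · have hp0 := (w_zero hv hw).2 hp
      rw [hw, hp0]
      simp only [div_zero, zero_mul, mul_zero]
      have : d.c 0 + d.c 1 = 1 := by linarith
      linarith
    · have : d.c 1 = 1 - d.p - d.c 0 := by linarith
      rw [this]
      field_simp
      ring

/-- shift -/
lemma sh_w (e : ℤ) (d : ED) : (shD e d).w = d.w := rfl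
lemma sh_M (e : ℤ) (d : ED) : (shD e d).M = d.M := rfl

lemma kk3 {d : ED} (hk : d.al 1 = 0 ∧ d.be 1 = 0) : rtD (rpD d) = d := by
  obtain ⟨b, al, be, p, T⟩ := d
  simp only at hk
  unfold rtD rpD
  simp only [ED.mk.injEq, true_and]
  refine ⟨?_, ?_, ?_⟩
  · funext y
    fin_cases y <;> simp [hk.1]
  · funext y
    fin_cases y <;> simp [hk.2]
  · simp

lemma valid_rp {d : ED} (hv : Valid d) (hk : d.al 1 = 0 ∧ d.be 1 = 0) : Valid (rpD d) := by
  have h := hv.sum
  have ch := hv.chain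
  refine ⟨?_, ?_, hv.p0, ?_, ?_, ?_⟩
  · intro y
    fin_cases y
    exacts [hv.al0 0, hv.al0 2, le_refl _]
  · intro y
    fin_cases y
    exacts [hv.be0 0, hv.be0 2, le_refl _]
  · show d.al 0 + d.al 2 + 0 + (d.be 0 + d.be 2 + 0) + d.p = 1
    rw [hk.1, hk.2] at h
    linarith
  · intro y y' hy hy'
    fin_cases y <;> fin_cases y'
    · exact le_refl _
    · decide
    · decide
    · exact absurd (ch 2 0 hy hy') (by decide)
    · exact le_refl _
    · decide
    · exact absurd hy (lt_irrefl _)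
    · exact absurd hy (lt_irrefl _)
    · exact le_refl _
  · intro hp y
    have := hv.cone hp
    fin_cases y
    exacts [this 0, this 2, rfl]

lemma ka3 (d : ED) : ka 3 d = -ka 2 (rpD d) := by
  have e1 : (rpD d).c 0 = d.c 0 := rfl
  have e2 : (rpD d).p = d.p := rfl
  have e3 : (rpD d).b = d.b := rfl
  unfold ka
  simp [e1, e2, e3]

end LAW

open LAW

theorem law4 : LAW4 := by
  intro e d hv hp
  have e1 : (shD e d).c 2 = d.c 2 := rfl
  have e2 : (shD e d).p = d.p := rfl
  have e3 : (shD e d).T = d.T + e * d.w := rfl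
  have e4 : (shD e d).b = d.b := rfl
  have hp' : (1 - d.p) ≠ 0 := by linarith
  unfold ED.A ED.Phi
  rw [sh_w, sh_M, e1, e2, e3, e4]
  by_cases hw : d.w = 0
  · have hp0 := (w_zero hv hw).2 hp
    rw [hw, hp0]
    simp
  · generalize (if d.b = true then (1:ℝ) / 3 else 1 / 2) = u
    generalize (if d.b = true then (2:ℝ) / 3 else 3 / 4) = v
    field_simp
    ring

theorem law3 : LAW3 := by
  intro k d hv hp hk ho
  have hk' : k = 0 ∨ k = 1 ∨ k = 2 ∨ k = 3 := by omega
  rcases hk' with rfl | rfl | rfl | rfl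
  · exact ⟨0, by simp [ka, kD, ba]⟩
  · have h0 := ho (by norm_num)
    refine ⟨0, ?_⟩
    have h0' : d.al 0 = 0 ∧ d.be 0 = 0 := by simpa [kL] using h0
    have e : kD 1 d = swD d := by simp [kD]
    rw [e]
    cases hb : d.b
    · have := A_sw_f hb h0' hp
      simp only [ka, ba]
      simp
      linarith
    · have := A_sw_t hb h0' hp
      simp only [ka, ba]
      simp
      linarith
  · have h0 := ho (by norm_num)
    have h0' : d.al 2 = 0 ∧ d.be 2 = 0 := by simpa [kL] using h0
    have e : kD 2 d = rtD d := by simp [kD]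
    have := A_rt hv h0' hp
    rw [e]
    cases hb : d.b
    · refine ⟨0, ?_⟩
      rw [hb] at this
      rw [this]
      simp [ba]
    · refine ⟨1, ?_⟩
      rw [hb] at this
      rw [this]
      simp [ba]
      norm_num
  · have h0 := ho (by norm_num)
    have h0' : d.al 1 = 0 ∧ d.be 1 = 0 := by simpa [kL] using h0
    have e : kD 3 d = rpD d := by simp [kD]
    have := A_rt (valid_rp hv h0') (d := rpD d) ⟨rfl, rfl⟩ hp
    rw [kk3 h0'] at this
    have eb : (rpD d).b = d.b := rfl
    rw [eb] at this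
    rw [e, ka3]
    cases hb : d.b
    · refine ⟨0, ?_⟩
      rw [hb] at this
      simp [ba] at this ⊢
      linarith
    · refine ⟨-1, ?_⟩
      rw [hb] at this
      simp [ba] at this ⊢
      linarith

lemma comb (r v : ℂ) (s t u : ℝ) (n : ℤ) (h : s = t + u + n) : r * (ee s * v) = ee t * (r * (ee u * v)) := by
  rw [h, ee_add_int, ee_add]
  ring

lemma comb0 (r : ℂ) (s t u : ℝ) (n : ℤ) (h : s = t + u + n) : r * ee s = ee t * (r * ee u) := by
  rw [h, ee_add_int, ee_add]
  ring

lemma comb1 (r x : ℂ) (s t u a b : ℝ) (n : ℤ) (h : s + a = t + u + b + n) :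
    r * (ee s * (x * ee a)) = ee t * (r * (ee u * (x * ee b))) := by
  have e1 : r * (ee s * (x * ee a)) = r * x * ee (s + a) := by rw [ee_add]; ring
  have e2 : ee t * (r * (ee u * (x * ee b))) = r * x * ee (t + u + b) := by rw [ee_add, ee_add]; ring
  rw [e1, e2, h, ee_add_int]

lemma UE0 (d : ED) : UE d 0 = ((d.p + d.w / 2 : ℝ) : ℂ) * ee (d.c 2 - ((1 - d.p) * d.T - d.M) / d.w) := rfl
lemma UE1 (d : ED) : UE d 1 =
    ((d.w0 + d.w / 2 : ℝ) : ℂ) * (ee (3 * d.A) * (Vb d.b fun y => d.c y / (1 - d.p)).1) := rfl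
lemma UE2 (d : ED) : UE d 2 =
    ((d.w0 + d.w / 2 : ℝ) : ℂ) * (ee (4 * d.A) * (Vb d.b fun y => d.c y / (1 - d.p)).2) := rfl

lemma UE_one {d : ED} (hv : Valid d) (hp : ¬ d.p < 1) : UE d = ![1, 0, 0] := by
  obtain ⟨ha, hb, hp1⟩ := p_one hv hp
  have hw : d.w = 0 := by unfold ED.w; simp [hb]
  have hw0 : d.w0 = 0 := by unfold ED.w0; simp [ha]
  have hc : d.c 2 = 0 := by rw [c_def, ha, hb, add_zero]
  funext j
  fin_cases j
  · show UE d 0 = 1
    rw [UE0, hw, hp1, hc]
    simp [ee_zero]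
  · show UE d 1 = 0
    rw [UE1, hw, hw0]
    simp
  · show UE d 2 = 0
    rw [UE2, hw, hw0]
    simp

theorem law2 : LAW2 := by
  intro e d hv j
  have e1 : (shD e d).c 2 = d.c 2 := rfl
  have e2 : (shD e d).p = d.p := rfl
  have e3 : (shD e d).T = d.T + e * d.w := rfl
  have e4 : (shD e d).b = d.b := rfl
  have e5 : (shD e d).w0 = d.w0 := rfl
  have e6 : (shD e d).c = d.c := rfl
  have hv' : Valid (shD e d) := ⟨hv.al0, hv.be0, hv.p0, hv.sum, hv.chain, hv.cone⟩
  by_cases hp : d.p < 1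
  · have hA := law4 e d hv hp
    fin_cases j
    · show UE d 0 = ee (((0 : ℕ) + 2 : ℝ) * (-(e * d.p / 2))) * UE (shD e d) 0
      rw [UE0, UE0, e1, e2, e3, sh_w, sh_M]
      by_cases hw : d.w = 0
      · have hp0 := (w_zero hv hw).2 hp
        rw [hw, hp0]
        simp
      · apply comb0 _ _ _ _ e
        push_cast
        field_simp
        ring
    · show UE d 1 = ee (((1 : ℕ) + 2 : ℝ) * (-(e * d.p / 2))) * UE (shD e d) 1
      rw [UE1, UE1, e2, e4, e5, e6, sh_w, hA]
      apply comb _ _ _ _ _ 0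
      push_cast
      ring
    · show UE d 2 = ee (((2 : ℕ) + 2 : ℝ) * (-(e * d.p / 2))) * UE (shD e d) 2
      rw [UE2, UE2, e2, e4, e5, e6, sh_w, hA]
      apply comb _ _ _ _ _ 0
      push_cast
      ring
  · rw [UE_one hv hp, UE_one hv' hp]
    obtain ⟨ha, hb, hp1⟩ := p_one hv hp
    fin_cases j
    · show (1 : ℂ) = ee (((0 : ℕ) + 2 : ℝ) * (-(e * d.p / 2))) * 1
      rw [hp1, mul_one]
      have : ((((0 : ℕ) + 2 : ℝ) * (-(e * 1 / 2)))) = ((-e : ℤ) : ℝ) := by push_cast; ring
      rw [this, ee_int]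
    · show (0 : ℂ) = _ * 0
      rw [mul_zero]
    · show (0 : ℂ) = _ * 0
      rw [mul_zero]

/-- law of the swap from `true` to `false` -/
lemma swap_t {d : ED} (hv : Valid d) (hb : d.b = true) (h0 : d.al 0 = 0 ∧ d.be 0 = 0) : UE d = UE (swD d) := by
  have hb' : (swD d).b = false := by simp [swD, hb]
  have hv' : Valid (swD d) := ⟨hv.al0, hv.be0, hv.p0, hv.sum, hv.chain, hv.cone⟩
  have e1 : (swD d).w = d.w := by
    rw [w_f hb', w_t hb]
    simp only [swD]
    rw [h0.2]; ring
  have e2 : (swD d).M = d.M := by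
    rw [M_f hb', M_t hb]
    simp only [swD, c_def]
    rw [h0.2, h0.1]; ring
  have e7 : (swD d).w0 = d.w0 := by
    rw [w0_f hb', w0_t hb]
    simp only [swD]
    rw [h0.1]; ring
  have e3 : (swD d).p = d.p := rfl
  have e4 : (swD d).T = d.T := rfl
  have e5 : (swD d).c = d.c := rfl
  by_cases hp : d.p < 1
  · have hA := A_sw_t hb h0 hp
    have hs := sum_c hv
    have c0 : d.c 0 = 0 := by rw [c_def, h0.1, h0.2, add_zero]
    have hh1 : d.c 1 / (1 - d.p) + d.c 2 / (1 - d.p) = 1 := by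
      rw [← add_div, div_eq_one_iff_eq (by linarith)]
      linarith
    funext j
    fin_cases j
    · show UE d 0 = UE (swD d) 0
      rw [UE0, UE0, e1, e2, e3, e4, e5]
    · show UE d 1 = UE (swD d) 1
      rw [UE1, UE1, e7, e1, e3, e5, hb, hb']
      unfold Vb
      simp only [if_true, Bool.false_eq_true, if_false]
      rw [hh1, φ_one, ← ee_add]
      congr 1
      rw [mul_one]
      congr 1
      unfold hh at hA
      linarith
    · show UE d 2 = UE (swD d) 2
      rw [UE2, UE2, e7, e1, e3, e5, hb, hb']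
      unfold Vb
      simp only [if_true, Bool.false_eq_true, if_false]
      rw [hh1, φ_one, ← ee_add]
      congr 1
      rw [mul_one]
      congr 1
      unfold hh at hA
      linarith
  · rw [UE_one hv hp, UE_one hv' hp]

lemma φ_self (x t : ℝ) : φ x (x * t) = (x : ℂ) * ee t := by
  rw [φ_eq]
  by_cases hx : x = 0
  · rw [hx]; simp
  · rw [mul_div_cancel_left₀ _ hx]

/-- law of the rotation -/
lemma rot_law {d : ED} (hv : Valid d) (h0 : d.al 2 = 0 ∧ d.be 2 = 0) (j : Fin 3) :
    UE d j = ee (((j : ℕ) + 2 : ℝ) * ka 2 d) * UE (rtD d) j := by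
  have hs := sum_c hv
  have e3 : (rtD d).p = d.p := rfl
  have e4 : (rtD d).T = d.T + d.be 0 := rfl
  have e5 : (rtD d).c 2 = d.c 1 := by rw [c_def, c_def]; simp [rtD]
  have e6 : (rtD d).b = d.b := rfl
  have e7 : (rtD d).c 0 = d.c 0 := by rw [c_def, c_def]; simp [rtD]
  have e8 : (rtD d).c 1 = 0 := by rw [c_def]; simp [rtD]
  have c2 : d.c 2 = 0 := by rw [c_def, h0.1, h0.2, add_zero]
  have b0 : (rtD d).be 0 = d.be 0 := rfl
  have b1 : (rtD d).be 1 = 0 := rfl
  have b2 : (rtD d).be 2 = d.be 1 := rfl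
  have a0 : (rtD d).al 0 = d.al 0 := rfl
  have a1 : (rtD d).al 1 = 0 := rfl
  have a2 : (rtD d).al 2 = d.al 1 := rfl
  have hk : ka 2 d = (if d.b = true then 2 / 3 else 3 / 4) * d.c 0 + d.p / 2 := by unfold ka; simp
  have hv' : Valid (rtD d) := by
    refine ⟨?_, ?_, hv.p0, ?_, ?_, ?_⟩
    · intro y
      fin_cases y
      exacts [hv.al0 0, le_refl _, hv.al0 1]
    · intro y
      fin_cases y
      exacts [hv.be0 0, le_refl _, hv.be0 1]
    · show d.al 0 + 0 + d.al 1 + (d.be 0 + 0 + d.be 1) + d.p = 1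
      have h := hv.sum
      rw [h0.1, h0.2] at h
      linarith
    · intro y y' hy hy'
      fin_cases y <;> fin_cases y'
      · exact le_refl _
      · decide
      · decide
      · exact absurd hy (lt_irrefl _)
      · exact le_refl _
      · decide
      · exact absurd (hv.chain 1 0 hy hy') (by decide)
      · exact absurd hy' (lt_irrefl _)
      · exact le_refl _
    · intro hp y
      have := hv.cone hp
      fin_cases y
      exacts [this 0, rfl, this 1]
  by_cases hp : d.p < 1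
  swap
  · rw [UE_one hv hp, UE_one hv' hp]
    obtain ⟨ha, hb, hp1⟩ := p_one hv hp
    fin_cases j
    · show (1 : ℂ) = ee (((0 : ℕ) + 2 : ℝ) * ka 2 d) * 1
      have c0 : d.c 0 = 0 := by rw [c_def, ha, hb, add_zero]
      rw [hk, hp1, c0]
      have : ((((0 : ℕ) + 2 : ℝ) * ((if d.b = true then 2 / 3 else 3 / 4) * 0 + 1 / 2))) = ((1 : ℤ) : ℝ) := by
        push_cast; ring
      rw [this, ee_int, mul_one]
    · show (0 : ℂ) = _ * 0
      rw [mul_zero]
    · show (0 : ℂ) = _ * 0
      rw [mul_zero]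
  have hA := A_rt hv h0 hp
  have hp' : (1 - d.p) ≠ 0 := by linarith
  have hc1 : d.c 1 = 1 - d.p - d.c 0 := by linarith
  have ew : (rtD d).w = d.w := by
    cases hb : d.b
    · rw [w_f (show (rtD d).b = false from hb), w_f hb, b0, b1, b2, h0.2]; ring
    · rw [w_t (show (rtD d).b = true from hb), w_t hb, b0, b1, b2, h0.2]; ring
  have ew0 : (rtD d).w0 = d.w0 := by
    cases hb : d.b
    · rw [w0_f (show (rtD d).b = false from hb), w0_f hb, a0, a1, a2, h0.1]; ring
    · rw [w0_t (show (rtD d).b = true from hb), w0_t hb, a0, a1, a2, h0.1]; ring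
  have eM : (rtD d).M = d.M + d.be 0 * (1 - d.p) - d.w * d.c 0 / (if d.b = true then 3 else 2) := by
    cases hb : d.b
    · rw [M_f (show (rtD d).b = false from hb), M_f hb, b0, b1, b2, e5, e7, e8, c2, w_f hb, h0.2]
      have : d.p = 1 - d.c 0 - d.c 1 := by linarith
      rw [this]
      simp only [Bool.false_eq_true, if_false]
      ring
    · rw [M_t (show (rtD d).b = true from hb), M_t hb, b0, b1, b2, e5, e7, e8, c2, w_t hb, h0.2]
      have : d.p = 1 - d.c 0 - d.c 1 := by linarith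
      rw [this]
      simp only [if_true]
      ring
  fin_cases j
  · show UE d 0 = ee (((0 : ℕ) + 2 : ℝ) * ka 2 d) * UE (rtD d) 0
    rw [UE0, UE0, ew, eM, e3, e4, e5, c2, hk, hc1]
    by_cases hw : d.w = 0
    · have hp0 := (w_zero hv hw).2 hp
      rw [hw, hp0]
      simp
    · apply comb0 _ _ _ _ (-1)
      cases hb : d.b
      · simp only [Bool.false_eq_true, if_false]
        push_cast
        field_simp
        ring
      · simp only [if_true]
        push_cast
        field_simp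
        ring
  · show UE d 1 = ee (((1 : ℕ) + 2 : ℝ) * ka 2 d) * UE (rtD d) 1
    rw [UE1, UE1, ew, ew0, e3, e6]
    cases hb : d.b
    · rw [hb] at hA
      simp only [Bool.false_eq_true, if_false] at hA
      unfold Vb
      simp only [Bool.false_eq_true, if_false]
      rw [e5, e8, c2, zero_div, zero_div, add_zero, zero_add]
      have x1 : -(0 : ℝ) = d.c 1 / (1 - d.p) * 0 := by ring
      have x2 : -(d.c 1 / (1 - d.p) / 4) = d.c 1 / (1 - d.p) * (-(1 / 4)) := by ring
      rw [x1, x2, φ_self, φ_self]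
      apply comb1 _ _ _ _ _ _ _ (-2)
      push_cast
      linarith
    · rw [hb] at hA
      simp only [if_true] at hA
      unfold Vb
      simp only [if_true]
      apply comb _ _ _ _ _ (-2)
      push_cast
      linarith
  · show UE d 2 = ee (((2 : ℕ) + 2 : ℝ) * ka 2 d) * UE (rtD d) 2
    rw [UE2, UE2, ew, ew0, e3, e6]
    cases hb : d.b
    · rw [hb] at hA
      simp only [Bool.false_eq_true, if_false] at hA
      unfold Vb
      simp only [Bool.false_eq_true, if_false]
      apply comb _ _ _ _ _ (-3)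
      push_cast
      linarith
    · rw [hb] at hA
      simp only [if_true] at hA
      unfold Vb
      simp only [if_true]
      rw [e5, e8, c2, zero_div, zero_div, add_zero, zero_add]
      have x2 : d.c 1 / (1 - d.p) / 3 = d.c 1 / (1 - d.p) * (1 / 3) := by ring
      rw [show φ (d.c 1 / (1 - d.p)) 0 = φ (d.c 1 / (1 - d.p)) (d.c 1 / (1 - d.p) * 0) by rw [mul_zero],
        x2, φ_self, φ_self]
      apply comb1 _ _ _ _ _ _ _ (-3)
      push_cast
      linarith

theorem law1 : LAW1 := by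
  intro k d hv hk ho j
  have hk' : k = 0 ∨ k = 1 ∨ k = 2 ∨ k = 3 := by omega
  rcases hk' with rfl | rfl | rfl | rfl
  · simp [ka, kD, ee_zero]
  · have h0 := ho (by norm_num)
    have h0' : d.al 0 = 0 ∧ d.be 0 = 0 := by simpa [kL] using h0
    have e : kD 1 d = swD d := by simp [kD]
    have ek : ka 1 d = 0 := by simp [ka]
    rw [e, ek, mul_zero, ee_zero, one_mul]
    cases hb : d.b
    · have := swap_t (d := swD d) ⟨hv.al0, hv.be0, hv.p0, hv.sum, hv.chain, hv.cone⟩ (by simp [swD, hb]) h0'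
      have e' : swD (swD d) = d := by unfold swD; simp
      rw [e'] at this
      rw [this]
    · rw [swap_t hv hb h0']
  · have h0 := ho (by norm_num)
    have h0' : d.al 2 = 0 ∧ d.be 2 = 0 := by simpa [kL] using h0
    have e : kD 2 d = rtD d := by simp [kD]
    rw [e]
    exact rot_law hv h0' j
  · have h0 := ho (by norm_num)
    have h0' : d.al 1 = 0 ∧ d.be 1 = 0 := by simpa [kL] using h0
    have e : kD 3 d = rpD d := by simp [kD]
    have h := rot_law (valid_rp hv h0') (d := rpD d) ⟨rfl, rfl⟩ j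
    rw [kk3 h0'] at h
    rw [e, ka3, h, ← mul_assoc, ← ee_add]
    have : ((j : ℕ) + 2 : ℝ) * -ka 2 (rpD d) + ((j : ℕ) + 2 : ℝ) * ka 2 (rpD d) = 0 := by ring
    rw [this, ee_zero, one_mul]

end Pool.Agent.H2.G1
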