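import Pool.Agent.H2.G1.Stmts

/-!
# T2, module SYMM
-/

open Finset

namespace Pool.Agent.H2.G1

open Pool.Agent.H95.G1 Pool.Agent.H95.TB

namespace SYM

lemma gc_gc : ∀ f a, gc (gc f a) (gs f a) = f ∧ gs (gc f a) (gs f a) = a := by decide +kernel

/-- the integer relation for the remaining slots -/
def chk (f : Fin 24) (a : Fin 5) (e : ℕ) : Bool :=
  (List.finRange 4).all fun i =>
    decide (0 < (wd (gc f a)).count ((gs f a).succAbove i)) && decide (0 < (wd f).count (a.succAbove i)) &&
    decide ((pfx f a).count ((gs f a).succAbove i) * (wd f).count (a.succAbove i) +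
      (pfx (gc f a) (gs f a)).count (a.succAbove i) * (wd (gc f a)).count ((gs f a).succAbove i) =
      e * ((wd (gc f a)).count ((gs f a).succAbove i) * (wd f).count (a.succAbove i)))

lemma chk_all : ∀ f a, chk f a 0 = true ∨ chk f a 1 = true := by decide +kernel

lemma pfx_not (f : Fin 24) (a : Fin 5) : (pfx f a).count (gs f a) = 0 := by
  rw [List.count_eq_zero]
  intro h
  have := List.mem_of_mem_take h
  rw [List.mem_filter] at this
  simp at this

lemma sum_list (L : List (Fin 5)) (g : Fin 5 → ℝ) : (L.map g).sum = ∑ s, (L.count s : ℝ) * g s := by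
  induction L with
  | nil => simp
  | cons x L ih =>
    rw [List.map_cons, List.sum_cons, ih]
    have : ∀ s, (((x :: L).count s : ℕ) : ℝ) * g s = (if s = x then g s else 0) + (L.count s : ℝ) * g s := by
      intro s
      rw [List.count_cons]
      by_cases h : s = x
      · rw [h]; simp; ring
      · have : ¬ (x = s) := fun e => h e.symm
        simp [h, this]
    rw [Finset.sum_congr rfl fun s _ => this s, Finset.sum_add_distrib, Finset.sum_ite_eq' univ x g]
    simp

lemma tp_same (a b : Fin 5) (P : Fin 5 → ℝ) : tp a b P b = 0 := by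
  unfold tp; rw [Fin.insertNth_apply_same]

lemma tp_succ (a b : Fin 5) (P : Fin 5 → ℝ) (i : Fin 4) : tp a b P (b.succAbove i) = P (a.succAbove i) := by
  unfold tp; rw [Fin.insertNth_apply_succAbove]

lemma tp_tp (a b : Fin 5) (P : Fin 5 → ℝ) (h : P a = 0) : tp b a (tp a b P) = P := by
  funext s
  by_cases hs : s = a
  · rw [hs, tp_same, h]
  · obtain ⟨i, rfl⟩ := Fin.exists_succAbove_eq hs
    rw [tp_succ, tp_succ]

lemma sim_tp {a b : Fin 5} {P : Fin 5 → ℝ} (hP : Sim P) (h : P a = 0) : Sim (tp a b P) := by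
  refine ⟨fun s => ?_, ?_⟩
  · by_cases hs : s = b
    · rw [hs, tp_same]
    · obtain ⟨i, rfl⟩ := Fin.exists_succAbove_eq hs
      rw [tp_succ]
      exact hP.1 _
  · rw [Fin.sum_univ_succAbove _ b, tp_same, zero_add, Finset.sum_congr rfl fun i _ => tp_succ a b P i]
    have := hP.2
    rw [Fin.sum_univ_succAbove _ a, h, zero_add] at this
    exact this

lemma th_eq (f : Fin 24) (a : Fin 5) (P : Fin 5 → ℝ) : th f a P =
    ∑ i : Fin 4, ((pfx f a).count ((gs f a).succAbove i) : ℝ) *
      (P (a.succAbove i) / ((wd (gc f a)).count ((gs f a).succAbove i) : ℝ)) := by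
  unfold th
  rw [sum_list, Fin.sum_univ_succAbove _ (gs f a), pfx_not]
  simp only [Nat.cast_zero, zero_mul, zero_add, tp_succ]

lemma th_inv {f : Fin 24} {a : Fin 5} {P : Fin 5 → ℝ} (hP : Sim P) (h : P a = 0) :
    ∃ n : ℤ, th (gc f a) (gs f a) (tp a (gs f a) P) = -th f a P + n := by
  have key : ∃ e : ℕ, chk f a e = true := by
    rcases chk_all f a with h | h
    · exact ⟨0, h⟩
    · exact ⟨1, h⟩
  obtain ⟨e, he⟩ := key
  refine ⟨e, ?_⟩
  obtain ⟨g1, g2⟩ := gc_gc f a
  have h1 : th (gc f a) (gs f a) (tp a (gs f a) P) + th f a P = e := by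
    rw [th_eq, th_eq, g2, g1, ← Finset.sum_add_distrib]
    have hs : ∑ i : Fin 4, P (a.succAbove i) = 1 := by
      have := hP.2
      rw [Fin.sum_univ_succAbove _ a, h, zero_add] at this
      exact this
    calc _ = ∑ i : Fin 4, (e : ℝ) * P (a.succAbove i) := by
          apply Finset.sum_congr rfl
          intro i _
          rw [tp_succ]
          unfold chk at he
          rw [List.all_eq_true] at he
          have hi := he i (List.mem_finRange i)
          simp only [Bool.and_eq_true, decide_eq_true_eq] at hi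
          obtain ⟨⟨c1, c2⟩, c3⟩ := hi
          have c3' : (((pfx f a).count ((gs f a).succAbove i) : ℕ) : ℝ) * ((wd f).count (a.succAbove i) : ℝ) +
            (((pfx (gc f a) (gs f a)).count (a.succAbove i) : ℕ) : ℝ) *
              ((wd (gc f a)).count ((gs f a).succAbove i) : ℝ) =
            e * (((wd (gc f a)).count ((gs f a).succAbove i) : ℝ) * ((wd f).count (a.succAbove i) : ℝ)) := by
            exact_mod_cast c3
          have c1' : ((wd (gc f a)).count ((gs f a).succAbove i) : ℝ) ≠ 0 := by
            exact_mod_cast c1.ne'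
          have c2' : ((wd f).count (a.succAbove i) : ℝ) ≠ 0 := by
            exact_mod_cast c2.ne'
          field_simp
          linear_combination P (a.succAbove i) * c3'
      _ = e := by rw [← Finset.mul_sum, hs, mul_one]
  push_cast
  linarith

lemma reach_trans {f : Fin 24} {P : Fin 5 → ℝ} {s : ℝ} {g : Fin 24} {Q : Fin 5 → ℝ} (h : Reach f P s g Q)
    {t : ℝ} {k : Fin 24} {R : Fin 5 → ℝ} (h' : Reach g Q t k R) : Reach f P (s + t) k R := by
  induction h with
  | refl f P => rwa [zero_add]
  | step f P a ha s' g Q hr ih =>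
    rw [add_assoc]
    exact Reach.step f P a ha _ _ _ (ih h')

lemma reach_one {f : Fin 24} {P : Fin 5 → ℝ} {a : Fin 5} (ha : P a = 0) :
    Reach f P (th f a P) (gc f a) (tp a (gs f a) P) := by
  have := Reach.step f P a ha 0 _ _ (Reach.refl (gc f a) (tp a (gs f a) P))
  rwa [add_zero] at this

lemma reach_sym {f : Fin 24} {P : Fin 5 → ℝ} {s : ℝ} {g : Fin 24} {Q : Fin 5 → ℝ} (h : Reach f P s g Q)
    (hP : Sim P) : ∃ n : ℤ, Reach g Q (-s + n) f P := by
  induction h with
  | refl f P => exact ⟨0, by simpa using Reach.refl f P⟩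
  | step f P a ha s' g Q hr ih =>
    obtain ⟨n, hn⟩ := ih (sim_tp hP ha)
    obtain ⟨m, hm⟩ := th_inv (f := f) hP ha
    have h1 := reach_one (f := gc f a) (P := tp a (gs f a) P) (a := gs f a) (tp_same _ _ _)
    obtain ⟨g1, g2⟩ := gc_gc f a
    rw [hm, g1, g2, tp_tp _ _ _ ha] at h1
    have h2 := reach_trans hn h1
    refine ⟨n + m, ?_⟩
    have e : -(th f a P + s') + ((n + m : ℤ) : ℝ) = -s' + n + (-th f a P + m) := by push_cast; ring
    rw [e]
    exact h2

end SYM

open SYM in
theorem symm : SYMM := by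
  intro f P s g Q hP h
  obtain ⟨s', n, hr, hs⟩ := h
  obtain ⟨m, hm⟩ := reach_sym hr hP
  refine ⟨_, m - n, hm, ?_⟩
  rw [hs]
  push_cast
  ring

end Pool.Agent.H2.G1
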